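import Pool.Agent.J6H9.EX.Stm

/-!
# Project EX: the pointwise median trick
-/

set_option autoImplicit false

namespace Pool.Agent.J6H11.EX

open Filter Topology Finset Pool.Agent.J6H9.EU Pool.Agent.J6H9.EX

theorem st_mono (d : ℕ → ℕ) {n n' : ℕ} (h : n ≤ n') : st d n ≤ st d n' := by
  unfold st
  exact Finset.sum_le_sum_of_subset (Finset.range_mono h)

theorem st_succ (d : ℕ → ℕ) (n : ℕ) : st d (n + 1) = st d n + d n := by
  unfold st
  exact Finset.sum_range_succ _ _

theorem Dn_inj {d : ℕ → ℕ} {n n' x : ℕ} (h : x ∈ Dn d n) (h' : x ∈ Dn d n') : n = n' := by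
  unfold Dn at h h'
  rw [Finset.mem_Ico] at h h'
  rcases lt_trichotomy n n' with hlt | heq | hlt
  · have := st_mono d (Nat.succ_le_of_lt hlt)
    rw [Nat.succ_eq_add_one, st_succ] at this
    omega
  · exact heq
  · have := st_mono d (Nat.succ_le_of_lt hlt)
    rw [Nat.succ_eq_add_one, st_succ] at this
    omega

theorem rank_card (S : Finset ℕ) (f : ℕ → ℕ) (hf : Set.InjOn f S) (R : ℕ) :
    (S.filter fun n => ¬ R ≤ (S.filter fun n' => f n' < f n).card).card ≤ R := by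
  classical
  have h : (S.filter fun n => ¬ R ≤ (S.filter fun n' => f n' < f n).card).card ≤
      (Finset.range R).card := by
    refine Finset.card_le_card_of_injOn (fun n => (S.filter fun n' => f n' < f n).card) ?_ ?_
    · intro n hn
      rw [Finset.mem_coe, Finset.mem_filter, not_le] at hn
      exact Finset.mem_coe.2 (Finset.mem_range.2 hn.2)
    · intro n hn n' hn' h
      rw [Finset.mem_coe, Finset.mem_filter] at hn hn'
      by_contra hne
      have key : ∀ a b, a ∈ S → b ∈ S → f a < f b →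
          (S.filter fun c => f c < f a).card < (S.filter fun c => f c < f b).card := by
        intro a b ha hb hab
        apply Finset.card_lt_card
        rw [Finset.ssubset_iff_of_subset]
        · exact ⟨a, Finset.mem_filter.2 ⟨ha, hab⟩, fun h => lt_irrefl _ (Finset.mem_filter.1 h).2⟩
        · intro c hc
          rw [Finset.mem_filter] at hc ⊢
          exact ⟨hc.1, hc.2.trans hab⟩
      have hne' : f n ≠ f n' := fun e => hne (hf hn.1 hn'.1 e)
      dsimp only at h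
      rcases lt_or_gt_of_ne hne' with hlt | hlt
      · have := key n n' hn.1 hn'.1 hlt
        omega
      · have := key n' n hn'.1 hn.1 hlt
        omega
  rwa [Finset.card_range] at h

theorem exists_n0 {w : ℕ → ℝ} {Dm : Finset ℕ} (hw : ∀ x, 0 ≤ w x) (hDm : ∑ x ∈ Dm, w x ≤ 1)
    (N : Finset ℕ) (Cp : ℕ → Finset ℕ) (g : ℕ → ℕ → ℕ) (hC : ∀ n ∈ N, Cp n ⊆ Dm)
    (hinj : ∀ c, Set.InjOn (fun n => g n c) (N.filter fun n => c ∈ Cp n)) {δ : ℝ}
    (hmass : ∀ n ∈ N, δ / 2 ≤ ∑ c ∈ Cp n, w c) (R : ℕ) (hR : (R : ℝ) ≤ N.card * (δ / 4))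
    (hN : N.Nonempty) :
    ∃ n0 ∈ N, δ / 4 ≤ ∑ c ∈ (Cp n0).filter (fun c =>
      R ≤ ((N.filter fun n => c ∈ Cp n).filter fun n' => g n' c < g n0 c).card), w c := by
  classical
  by_contra hcon
  push Not at hcon
  have h1 : ∀ n ∈ N, ∑ c ∈ Cp n, w c = ∑ c ∈ (Cp n).filter (fun c =>
      R ≤ ((N.filter fun n => c ∈ Cp n).filter fun n' => g n' c < g n c).card), w c +
      ∑ c ∈ (Cp n).filter (fun c =>
      ¬ R ≤ ((N.filter fun n => c ∈ Cp n).filter fun n' => g n' c < g n c).card), w c :=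
    fun n _ => (Finset.sum_filter_add_sum_filter_not _ _ _).symm
  have h2 : ∑ n ∈ N, ∑ c ∈ (Cp n).filter (fun c =>
      ¬ R ≤ ((N.filter fun n => c ∈ Cp n).filter fun n' => g n' c < g n c).card), w c ≤ R := by
    have e1 : ∑ n ∈ N, ∑ c ∈ (Cp n).filter (fun c =>
        ¬ R ≤ ((N.filter fun n => c ∈ Cp n).filter fun n' => g n' c < g n c).card), w c =
        ∑ n ∈ N, ∑ c ∈ Dm, if (c ∈ Cp n ∧
          ¬ R ≤ ((N.filter fun n => c ∈ Cp n).filter fun n' => g n' c < g n c).card) then w c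
          else 0 := by
      refine Finset.sum_congr rfl fun n hn => ?_
      rw [← Finset.sum_filter]
      refine Finset.sum_congr ?_ fun _ _ => rfl
      ext c
      rw [Finset.mem_filter, Finset.mem_filter]
      constructor
      · rintro ⟨a1, a2⟩
        exact ⟨hC n hn a1, a1, a2⟩
      · rintro ⟨_, a1, a2⟩
        exact ⟨a1, a2⟩
    rw [e1, Finset.sum_comm]
    have e2 : ∀ c ∈ Dm, (∑ n ∈ N, if (c ∈ Cp n ∧
          ¬ R ≤ ((N.filter fun n => c ∈ Cp n).filter fun n' => g n' c < g n c).card) then w c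
          else 0) ≤ R * w c := by
      intro c _
      rw [← Finset.sum_filter, Finset.sum_const, nsmul_eq_mul]
      refine mul_le_mul_of_nonneg_right ?_ (hw c)
      have h3 := rank_card (N.filter fun n => c ∈ Cp n) (fun n => g n c) (hinj c) R
      rw [Finset.filter_filter] at h3
      exact_mod_cast h3
    refine (Finset.sum_le_sum e2).trans ?_
    rw [← Finset.mul_sum]
    calc (R : ℝ) * ∑ x ∈ Dm, w x ≤ R * 1 := mul_le_mul_of_nonneg_left hDm (Nat.cast_nonneg _)
      _ = R := mul_one _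
  have h3 : ∑ n ∈ N, δ / 2 ≤ ∑ n ∈ N, ∑ c ∈ Cp n, w c := Finset.sum_le_sum hmass
  rw [Finset.sum_congr rfl h1, Finset.sum_add_distrib] at h3
  have h4 := Finset.sum_lt_sum_of_nonempty hN hcon
  rw [Finset.sum_const, nsmul_eq_mul] at h3 h4
  have h5 : (N.card : ℝ) * (δ / 2) = N.card * (δ / 4) + N.card * (δ / 4) := by ring
  linarith

theorem main : Pool.Agent.J6H9.EX.S_MED := by
  classical
  intro hG w d hM δ hδ H φ ε hε M
  obtain ⟨M1, hM1⟩ := hM.small (ε / 2) (by positivity)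
  set M' := max M M1 with hM'
  obtain ⟨R, hR⟩ := exists_nat_gt (4 / (δ * ε))
  have hR0 : (0 : ℝ) < R := lt_trans (by positivity) hR
  have hR0' : 0 < R := by exact_mod_cast hR0
  obtain ⟨K', hK'⟩ := exists_nat_gt (4 * R / δ)
  obtain ⟨m, N0, hN0, hN0'⟩ := H (K' + M')
  set N := N0.filter fun n => M' ≤ n with hN
  have hNc : K' < N.card := by
    have h1 : N0.card ≤ N.card + M' := by
      have h2 : N0 ⊆ N ∪ Finset.range M' := by
        intro n hn
        rw [Finset.mem_union, hN, Finset.mem_filter, Finset.mem_range]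
        by_cases h : M' ≤ n
        · exact Or.inl ⟨hn, h⟩
        · exact Or.inr (by omega)
      have h3 := (Finset.card_le_card h2).trans (Finset.card_union_le _ _)
      rwa [Finset.card_range] at h3
    omega
  have hNN : ∀ n ∈ N, n ∈ N0 ∧ M' ≤ n := fun n hn => Finset.mem_filter.1 hn
  have hch : ∀ n, ∃ (C : Finset ℕ) (j : ℕ → ℕ), n ∈ N → C ⊆ Dn d m ∧ Set.InjOn j C ∧
      (∀ c ∈ C, j c ∈ Dn d n ∧ w c ≤ w (j c)) ∧ δ ≤ ∑ x ∈ C, w x := by
    intro n
    by_cases hn : n ∈ N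
    · obtain ⟨C, h1, ⟨j, h2, h3⟩, h4⟩ := hN0' n (hNN n hn).1
      exact ⟨C, j, fun _ => ⟨h1, h2, fun c hc => ⟨Finset.mem_coe.1 (h3 c hc).1, (h3 c hc).2⟩, h4⟩⟩
    · exact ⟨∅, id, fun h => absurd h hn⟩
  choose Cn j hCj using hch
  set Cp : ℕ → Finset ℕ := fun n => (Cn n).filter fun c => w (j n c) ≤ 2 / δ * w c with hCp
  have hCpm : ∀ n ∈ N, ∀ c ∈ Cp n, c ∈ Cn n ∧ w (j n c) ≤ 2 / δ * w c := fun n _ c hc =>
    Finset.mem_filter.1 hc
  have hw : ∀ x, 0 ≤ w x := fun x => (hM.pos x).le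
  have hsub : ∀ n ∈ N, Cp n ⊆ Dn d m := fun n hn =>
    (Finset.filter_subset _ _).trans (hCj n hn).1
  have hmass : ∀ n ∈ N, δ / 2 ≤ ∑ c ∈ Cp n, w c := by
    intro n hn
    obtain ⟨h1, h2, h3, h4⟩ := hCj n hn
    have h5 : ∑ c ∈ (Cn n).filter (fun c => ¬ w (j n c) ≤ 2 / δ * w c), w c ≤ δ / 2 := by
      have h6 : ∀ c ∈ (Cn n).filter (fun c => ¬ w (j n c) ≤ 2 / δ * w c),
          w c ≤ δ / 2 * w (j n c) := by
        intro c hc
        rw [Finset.mem_filter, not_le] at hc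
        have h7 : δ / 2 * (2 / δ * w c) ≤ δ / 2 * w (j n c) :=
          mul_le_mul_of_nonneg_left hc.2.le (by positivity)
        have h8 : δ / 2 * (2 / δ * w c) = w c := by
          field_simp
        linarith
      refine (Finset.sum_le_sum h6).trans ?_
      rw [← Finset.mul_sum]
      have h9 : ∑ c ∈ (Cn n).filter (fun c => ¬ w (j n c) ≤ 2 / δ * w c), w (j n c) ≤ 1 := by
        rw [← Finset.sum_image (f := w) (g := j n) (s := (Cn n).filter
          (fun c => ¬ w (j n c) ≤ 2 / δ * w c))]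
        · refine (Finset.sum_le_sum_of_subset_of_nonneg ?_ fun x _ _ => hw x).trans (hM.le n)
          intro x hx
          obtain ⟨c, hc, rfl⟩ := Finset.mem_image.1 hx
          exact (h3 c (Finset.mem_filter.1 hc).1).1
        · intro a ha b hb hab
          exact h2 (Finset.mem_filter.1 ha).1 (Finset.mem_filter.1 hb).1 hab
      calc δ / 2 * _ ≤ δ / 2 * 1 := mul_le_mul_of_nonneg_left h9 (by positivity)
        _ = δ / 2 := mul_one _
    have h10 := Finset.sum_filter_add_sum_filter_not (Cn n)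
      (fun c => w (j n c) ≤ 2 / δ * w c) w
    linarith
  have hinj : ∀ c, Set.InjOn (fun n => φ (j n c)) (N.filter fun n => c ∈ Cp n) := by
    intro c n hn n' hn' h
    rw [Finset.mem_coe, Finset.mem_filter] at hn hn'
    have h1 := ((hCj n hn.1).2.2.1 c (hCpm n hn.1 c hn.2).1).1
    have h2 := ((hCj n' hn'.1).2.2.1 c (hCpm n' hn'.1 c hn'.2).1).1
    have h3 : j n c = j n' c := φ.injective h
    rw [h3] at h1
    exact Dn_inj h1 h2
  have hRN : (R : ℝ) ≤ N.card * (δ / 4) := by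
    have h1 : (4 * R / δ : ℝ) < N.card := hK'.trans (by exact_mod_cast hNc)
    rw [div_lt_iff₀ hδ] at h1
    linarith
  obtain ⟨n0, hn0, hE⟩ := exists_n0 hw (hM.le m) N Cp (fun n c => φ (j n c)) hsub hinj hmass R hRN
    (Finset.card_pos.1 (by omega))
  set X := (Cp n0).filter (fun c =>
      R ≤ ((N.filter fun n => c ∈ Cp n).filter fun n' => φ (j n' c) < φ (j n0 c)).card) with hX
  set Λ : ℕ → Finset ℕ := fun c =>
    (N.filter fun n => c ∈ Cp n).filter fun n' => φ (j n' c) < φ (j n0 c) with hΛ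
  have hΛm : ∀ c, ∀ n ∈ Λ c, n ∈ N ∧ c ∈ Cp n ∧ φ (j n c) < φ (j n0 c) := by
    intro c n hn
    rw [hΛ, Finset.mem_filter, Finset.mem_filter] at hn
    exact ⟨hn.1.1, hn.1.2, hn.2⟩
  have hXm : ∀ c ∈ X, c ∈ Cp n0 ∧ R ≤ (Λ c).card := fun c hc => Finset.mem_filter.1 hc
  obtain ⟨a, ha1, ha2⟩ := hG X (fun c => 2 / δ * w c) Λ (fun c n => w (j n c)) R (ε / 2) hR0'
    (by positivity) (fun c _ => mul_nonneg (by positivity) (hw c)) (fun c hc => (hXm c hc).2)
    (fun c _ n hn => by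
      obtain ⟨h1, h2, h3⟩ := hΛm c n hn
      obtain ⟨h4, h5⟩ := hCpm n h1 c h2
      refine ⟨hw _, h5, hM1 n ?_ _ ((hCj n h1).2.2.1 c h4).1⟩
      exact (le_max_right _ _).trans (hNN n h1).2)
  have haN : ∀ c ∈ X, a c ∈ N ∧ c ∈ Cn (a c) ∧ j (a c) c ∈ Dn d (a c) ∧
      φ (j (a c) c) < φ (j n0 c) := by
    intro c hc
    obtain ⟨h1, h2, h3⟩ := hΛm c _ (ha1 c hc)
    have h4 := (hCpm _ h1 c h2).1
    exact ⟨h1, h4, ((hCj _ h1).2.2.1 c h4).1, h3⟩
  have hX0 : ∀ c ∈ X, c ∈ Cn n0 ∧ j n0 c ∈ Dn d n0 ∧ w c ≤ w (j n0 c) := by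
    intro c hc
    have h4 := (hCpm n0 hn0 c (hXm c hc).1).1
    exact ⟨h4, (hCj _ hn0).2.2.1 c h4⟩
  have hst : ∀ n ∈ N, ∀ x ∈ Dn d n, st d M ≤ x := by
    intro n hn x hx
    unfold Dn at hx
    rw [Finset.mem_Ico] at hx
    exact (st_mono d ((le_max_left _ _).trans (hNN n hn).2)).trans hx.1
  have hinj0 : Set.InjOn (j n0) X := fun c hc c' hc' h =>
    (hCj n0 hn0).2.1 (hX0 c hc).1 (hX0 c' hc').1 h
  have hinja : Set.InjOn (fun c => j (a c) c) X := by
    intro c hc c' hc' h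
    obtain ⟨h1, h2, h3, -⟩ := haN c hc
    obtain ⟨k1, k2, k3, -⟩ := haN c' hc'
    dsimp only at h
    have h4 : a c = a c' := by
      rw [h] at h3
      exact Dn_inj h3 k3
    rw [h4] at h h2
    exact (hCj _ k1).2.1 h2 k2 h
  refine ⟨X.image fun c => j (a c) c, X.image (j n0), ?_, ?_, ?_, ?_, ?_⟩
  · intro x hx
    obtain ⟨c, hc, rfl⟩ := Finset.mem_image.1 hx
    exact hst _ (haN c hc).1 _ (haN c hc).2.2.1
  · intro x hx
    obtain ⟨c, hc, rfl⟩ := Finset.mem_image.1 hx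
    exact hst _ hn0 _ (hX0 c hc).2.1
  · have hgi : ∀ c ∈ X, Function.invFunOn (j n0) (X : Set ℕ) (j n0 c) = c := by
      intro c hc
      exact hinj0.leftInvOn_invFunOn hc
    refine ⟨fun y => j (a (Function.invFunOn (j n0) (X : Set ℕ) y))
      (Function.invFunOn (j n0) (X : Set ℕ) y), ?_, ?_⟩
    · intro y hy y' hy' h
      obtain ⟨c, hc, rfl⟩ := Finset.mem_image.1 (Finset.mem_coe.1 hy)
      obtain ⟨c', hc', rfl⟩ := Finset.mem_image.1 (Finset.mem_coe.1 hy')
      dsimp only at h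
      rw [hgi c hc, hgi c' hc'] at h
      rw [hinja hc hc' h]
    · intro y hy
      obtain ⟨c, hc, rfl⟩ := Finset.mem_image.1 hy
      dsimp only
      rw [hgi c hc]
      exact ⟨Finset.mem_image.2 ⟨c, hc, rfl⟩, (haN c hc).2.2.2.le⟩
  · intro n
    have h1 : (Dn d n).filter (· ∈ X.image fun c => j (a c) c) =
        (X.filter fun c => a c = n).image fun c => j (a c) c := by
      ext x
      rw [Finset.mem_filter, Finset.mem_image, Finset.mem_image]
      constructor
      · rintro ⟨h2, c, hc, rfl⟩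
        exact ⟨c, Finset.mem_filter.2 ⟨hc, Dn_inj (haN c hc).2.2.1 h2⟩, rfl⟩
      · rintro ⟨c, hc, rfl⟩
        rw [Finset.mem_filter] at hc
        have h3 := (haN c hc.1).2.2.1
        refine ⟨?_, c, hc.1, rfl⟩
        rw [hc.2] at h3 ⊢
        exact h3
    rw [h1, Finset.sum_image fun c hc c' hc' h =>
      hinja (Finset.mem_filter.1 hc).1 (Finset.mem_filter.1 hc').1 h]
    have h2 : ∑ c ∈ X.filter (fun c => a c = n), w (j (a c) c) =
        ∑ c ∈ X.filter (fun c => a c = n), w (j n c) := by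
      refine Finset.sum_congr rfl fun c hc => ?_
      rw [(Finset.mem_filter.1 hc).2]
    rw [h2]
    refine (ha2 n).trans ?_
    have h3 : ∑ c ∈ X, 2 / δ * w c ≤ 2 / δ := by
      rw [← Finset.mul_sum]
      have h4 : ∑ c ∈ X, w c ≤ 1 :=
        (Finset.sum_le_sum_of_subset_of_nonneg ((Finset.filter_subset _ _).trans (hsub n0 hn0))
          fun x _ _ => hw x).trans (hM.le m)
      calc 2 / δ * ∑ c ∈ X, w c ≤ 2 / δ * 1 := mul_le_mul_of_nonneg_left h4 (by positivity)
        _ = 2 / δ := mul_one _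
    have h5 : (∑ c ∈ X, 2 / δ * w c) / R ≤ ε / 2 := by
      rw [div_le_iff₀ hR0]
      refine h3.trans ?_
      rw [div_lt_iff₀ (by positivity)] at hR
      rw [div_le_iff₀ hδ]
      nlinarith
    linarith
  · refine ⟨n0, ?_⟩
    have h1 : (Dn d n0).filter (· ∈ X.image (j n0)) = X.image (j n0) := by
      ext x
      rw [Finset.mem_filter]
      constructor
      · exact fun h => h.2
      · intro h
        refine ⟨?_, h⟩
        obtain ⟨c, hc, rfl⟩ := Finset.mem_image.1 h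
        exact (hX0 c hc).2.1
    rw [h1, Finset.sum_image fun c hc c' hc' h => hinj0 hc hc' h]
    exact hE.trans (Finset.sum_le_sum fun c hc => (hX0 c hc).2.2)

end Pool.Agent.J6H11.EX
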